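import Pool.Agent.Helper70.EX.Tri
import Pool.Agent.Helper87.EX.B

/-! `GI F1`, and uniform bounds of `log |det|`. -/

set_option autoImplicit false

namespace Pool.Agent.Helper70.EX

open MeasureTheory Pool.Agent.Helper87.EX
open scoped ENNReal

theorem abs_log_le (x : ℂ) : ENNReal.ofReal |Real.log ‖x‖| ≤ ENNReal.ofReal ‖x‖ + 2 * NN x := by
  by_cases hx : x = 0
  · subst hx
    simp
  · rw [NN_ofReal hx]
    have ht : 0 < ‖x‖ := norm_pos_iff.2 hx
    rw [show (2 : ℝ≥0∞) = ENNReal.ofReal 2 by simp, ← ENNReal.ofReal_mul (by norm_num),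
      ← ENNReal.ofReal_add ht.le (by positivity)]
    apply ENNReal.ofReal_le_ofReal
    have h1 : Real.log ‖x‖ ≤ ‖x‖ := by
      have := Real.log_le_sub_one_of_pos ht
      linarith
    have h2 : Real.log (‖x‖ ^ (-(1 / 2) : ℝ)) ≤ ‖x‖ ^ (-(1 / 2) : ℝ) := by
      have := Real.log_le_sub_one_of_pos (Real.rpow_pos_of_pos ht (-(1 / 2)))
      linarith
    rw [Real.log_rpow ht] at h2
    have h3 : 0 < ‖x‖ ^ (-(1 / 2) : ℝ) := Real.rpow_pos_of_pos ht _
    rw [abs_le]
    constructor
    · linarith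
    · linarith

/-- the total weight -/
noncomputable def Wt {k : ℕ} (c : ℝ) (m : Fin k → E 1) : ℝ≥0∞ := ∏ p, g1 c (m p)

theorem Wt_meas {k : ℕ} (c : ℝ) : Measurable (Wt (k := k) c) := by
  unfold Wt
  apply Finset.measurable_prod
  intro p _
  exact (g1_meas c).comp (measurable_pi_apply p)

theorem Wt_eq {k : ℕ} (c : ℝ) (m : Fin k → E 1) :
    Wt c m = ENNReal.ofReal (Real.exp (-c * ∑ p, q (m p))) := by
  unfold Wt g1 g3 gE q
  rw [Finset.mul_sum, Real.exp_sum, ENNReal.ofReal_prod_of_nonneg (fun _ _ => (Real.exp_pos _).le)]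
  apply Finset.prod_congr rfl
  intro p _
  rw [Fin.sum_univ_one, Finset.mul_sum, Real.exp_sum,
    ENNReal.ofReal_prod_of_nonneg (fun _ _ => (Real.exp_pos _).le)]

theorem Wt_int_lt {k : ℕ} {c : ℝ} (hc : 0 < c) : ∫⁻ m : Fin k → E 1, Wt c m < ⊤ := by
  have h := peel_base (δ := Fin k) (volume : Measure (E 1)) (g1 c) (g1_meas c) 1 Finset.univ 0
  rw [lmarginal_univ] at h
  refine lt_of_le_of_lt ?_ (lt_of_le_of_lt h ?_)
  · apply le_of_eq
    rw [volume_pi]
    simp [Wt]
  · rw [one_mul]
    exact ENNReal.pow_lt_top (g1_int_lt hc)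

/-- uniform bound of the integral of `|log|` of a function which is affine in one coordinate -/
theorem log_tri {k : ℕ} {c : ℝ} (hc : 0 < c) (B : ℝ) : ∃ K : ℝ≥0∞, K ≠ ⊤ ∧
    ∀ (i j l : Fin k), i ≠ j → i ≠ l → j ≠ l → ∀ (ε : ℂ), ‖ε‖ = 1 →
    ∀ (f : (Fin k → E 1) → ℂ), Measurable f →
    (∀ m (z : ℂ), f (Function.update m i (fun _ => Function.update (m i 0) 0 z)) = f m) →
    (∀ m, ‖ε * b2 (m j 0) (m l 0) * m i 0 0 + f m‖ ≤ B * Real.exp (c / 2 * ∑ p, q (m p))) →
    ∫⁻ m : Fin k → E 1, ENNReal.ofReal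
      |Real.log ‖ε * b2 (m j 0) (m l 0) * m i 0 0 + f m‖| * Wt c m ≤ K := by
  obtain ⟨K, hK, h⟩ := triple (k := k) hc
  refine ⟨ENNReal.ofReal |B| * (∫⁻ m : Fin k → E 1, Wt (c / 2) m) + 2 * K, ?_, ?_⟩
  · refine ENNReal.add_ne_top.2 ⟨?_, ?_⟩
    · exact ENNReal.mul_ne_top ENNReal.ofReal_ne_top (Wt_int_lt (by positivity)).ne
    · exact ENNReal.mul_ne_top (by simp) hK
  · intro i j l hij hil hjl ε hε f hf hfi hB
    have mc : ∀ (p : Fin k) (a : Fin 3), Measurable (fun m : Fin k → E 1 => m p 0 a) := by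
      intro p a
      exact (measurable_pi_apply a).comp ((measurable_pi_apply 0).comp (measurable_pi_apply p))
    have hb2 : Measurable (fun m : Fin k → E 1 => b2 (m j 0) (m l 0)) := by
      unfold b2
      exact ((mc j 1).mul (mc l 2)).sub ((mc j 2).mul (mc l 1))
    have hX : Measurable (fun m : Fin k → E 1 => ε * b2 (m j 0) (m l 0) * m i 0 0 + f m) :=
      ((hb2.const_mul ε).mul (mc i 0)).add hf
    have h1 : ∀ m : Fin k → E 1, ENNReal.ofReal
        |Real.log ‖ε * b2 (m j 0) (m l 0) * m i 0 0 + f m‖| * Wt c m ≤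
        ENNReal.ofReal |B| * Wt (c / 2) m +
          2 * (NN (ε * b2 (m j 0) (m l 0) * m i 0 0 + f m) * Wt c m) := by
      intro m
      calc _ ≤ (ENNReal.ofReal ‖ε * b2 (m j 0) (m l 0) * m i 0 0 + f m‖ +
            2 * NN (ε * b2 (m j 0) (m l 0) * m i 0 0 + f m)) * Wt c m := by
              gcongr
              exact abs_log_le _
        _ = ENNReal.ofReal ‖ε * b2 (m j 0) (m l 0) * m i 0 0 + f m‖ * Wt c m +
          2 * (NN (ε * b2 (m j 0) (m l 0) * m i 0 0 + f m) * Wt c m) := by ring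
        _ ≤ _ := by
          gcongr ?_ + _
          rw [Wt_eq, Wt_eq, ← ENNReal.ofReal_mul (norm_nonneg _), ← ENNReal.ofReal_mul (abs_nonneg _)]
          apply ENNReal.ofReal_le_ofReal
          calc _ ≤ (B * Real.exp (c / 2 * ∑ p, q (m p))) * Real.exp (-c * ∑ p, q (m p)) := by
                gcongr
                exact hB m
            _ ≤ (|B| * Real.exp (c / 2 * ∑ p, q (m p))) * Real.exp (-c * ∑ p, q (m p)) := by
                gcongr
                exact le_abs_self B
            _ = |B| * Real.exp (-(c / 2) * ∑ p, q (m p)) := by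
                rw [mul_assoc, ← Real.exp_add]
                ring_nf
    refine (lintegral_mono h1).trans ?_
    have hm2 : Measurable (fun m : Fin k → E 1 =>
        NN (ε * b2 (m j 0) (m l 0) * m i 0 0 + f m) * Wt c m) :=
      (NN_meas.comp hX).mul (Wt_meas _)
    rw [lintegral_add_left ((Wt_meas _).const_mul _), lintegral_const_mul _ (Wt_meas _),
      lintegral_const_mul _ hm2]
    have h5 := h i j l hij hil hjl ε hε f hf hfi
    exact add_le_add le_rfl (mul_le_mul' le_rfl h5)

theorem le_exp {c : ℝ} (hc : 0 < c) (t : ℝ) :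
    t ≤ (1 / Real.sqrt (2 * c)) * Real.exp (c / 2 * t ^ 2) := by
  have h1 : 0 < Real.sqrt (2 * c) := Real.sqrt_pos.2 (by positivity)
  have h2 : Real.sqrt (2 * c) * Real.sqrt (2 * c) = 2 * c := Real.mul_self_sqrt (by positivity)
  have h3 := Real.add_one_le_exp (c / 2 * t ^ 2)
  rw [one_div, inv_mul_eq_div, le_div_iff₀ h1]
  refine le_trans ?_ h3
  have h4 : 0 ≤ (Real.sqrt (2 * c) * t / 2 - 1) ^ 2 := sq_nonneg _
  have h5 : (Real.sqrt (2 * c) * t / 2 - 1) ^ 2 =
      (Real.sqrt (2 * c) * Real.sqrt (2 * c)) * t ^ 2 / 4 - t * Real.sqrt (2 * c) + 1 := by ring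
  rw [h5, h2] at h4
  nlinarith

theorem q_coord {k : ℕ} (m : Fin k → E 1) (i j l : Fin k) (hij : i ≠ j) (hil : i ≠ l)
    (hjl : j ≠ l) (a b d : Fin 3) :
    ‖m i 0 a‖ ^ 2 + ‖m j 0 b‖ ^ 2 + ‖m l 0 d‖ ^ 2 ≤ ∑ p, q (m p) := by
  have h1 : ∀ (p : Fin k) (a : Fin 3), ‖m p 0 a‖ ^ 2 ≤ q (m p) := by
    intro p a
    unfold q
    rw [Fin.sum_univ_one, ← Complex.normSq_eq_norm_sq]
    exact Finset.single_le_sum (f := fun i => Complex.normSq (m p 0 i))
      (fun _ _ => Complex.normSq_nonneg _) (Finset.mem_univ a)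
  have h2 : ∑ p ∈ ({i, j, l} : Finset (Fin k)), q (m p) ≤ ∑ p, q (m p) := by
    apply Finset.sum_le_univ_sum_of_nonneg
    intro p
    unfold q
    exact Finset.sum_nonneg fun _ _ => Finset.sum_nonneg fun _ _ => Complex.normSq_nonneg _
  rw [Finset.sum_insert (by simp [hij, hil]), Finset.sum_insert (by simp [hjl]),
    Finset.sum_singleton] at h2
  linarith [h1 i a, h1 j b, h1 l d]

/-- a monomial of the determinant -/
theorem mono_le {k : ℕ} {c : ℝ} (hc : 0 < c) (m : Fin k → E 1) (i j l : Fin k) (hij : i ≠ j)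
    (hil : i ≠ l) (hjl : j ≠ l) (a b d : Fin 3) :
    ‖m i 0 a‖ * ‖m j 0 b‖ * ‖m l 0 d‖ ≤
      (1 / Real.sqrt (2 * c)) ^ 3 * Real.exp (c / 2 * ∑ p, q (m p)) := by
  have h0 : 0 ≤ 1 / Real.sqrt (2 * c) := by positivity
  calc ‖m i 0 a‖ * ‖m j 0 b‖ * ‖m l 0 d‖
      ≤ ((1 / Real.sqrt (2 * c)) * Real.exp (c / 2 * ‖m i 0 a‖ ^ 2)) *
        ((1 / Real.sqrt (2 * c)) * Real.exp (c / 2 * ‖m j 0 b‖ ^ 2)) *
        ((1 / Real.sqrt (2 * c)) * Real.exp (c / 2 * ‖m l 0 d‖ ^ 2)) := by
        gcongr
        · exact le_exp hc _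
        · exact le_exp hc _
        · exact le_exp hc _
    _ = (1 / Real.sqrt (2 * c)) ^ 3 *
        Real.exp (c / 2 * (‖m i 0 a‖ ^ 2 + ‖m j 0 b‖ ^ 2 + ‖m l 0 d‖ ^ 2)) := by
        rw [mul_add, mul_add, Real.exp_add, Real.exp_add]
        ring
    _ ≤ _ := by
        gcongr
        exact q_coord m i j l hij hil hjl a b d

theorem dt_le {k : ℕ} {c : ℝ} (hc : 0 < c) (m : Fin k → E 1) (i j l : Fin k) (hij : i ≠ j)
    (hil : i ≠ l) (hjl : j ≠ l) :
    ‖dt (m i 0) (m j 0) (m l 0)‖ ≤
      (6 * (1 / Real.sqrt (2 * c)) ^ 3) * Real.exp (c / 2 * ∑ p, q (m p)) := by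
  have H := mono_le hc m i j l hij hil hjl
  have e : dt (m i 0) (m j 0) (m l 0) =
      m i 0 0 * m j 0 1 * m l 0 2 - m i 0 0 * m j 0 2 * m l 0 1
      - (m i 0 1 * m j 0 0 * m l 0 2 - m i 0 1 * m j 0 2 * m l 0 0)
      + (m i 0 2 * m j 0 0 * m l 0 1 - m i 0 2 * m j 0 1 * m l 0 0) := by
    unfold dt
    ring
  rw [e]
  have n3 : ∀ x y z : ℂ, ‖x * y * z‖ = ‖x‖ * ‖y‖ * ‖z‖ := fun x y z => by
    rw [norm_mul, norm_mul]
  refine (norm_add_le _ _).trans ?_
  have t1 := norm_sub_le (m i 0 0 * m j 0 1 * m l 0 2 - m i 0 0 * m j 0 2 * m l 0 1)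
    (m i 0 1 * m j 0 0 * m l 0 2 - m i 0 1 * m j 0 2 * m l 0 0)
  have t2 := norm_sub_le (m i 0 0 * m j 0 1 * m l 0 2) (m i 0 0 * m j 0 2 * m l 0 1)
  have t3 := norm_sub_le (m i 0 1 * m j 0 0 * m l 0 2) (m i 0 1 * m j 0 2 * m l 0 0)
  have t4 := norm_sub_le (m i 0 2 * m j 0 0 * m l 0 1) (m i 0 2 * m j 0 1 * m l 0 0)
  rw [n3, n3] at t2 t3 t4
  have := H 0 1 2
  have := H 0 2 1
  have := H 1 0 2
  have := H 1 2 0
  have := H 2 0 1
  have := H 2 1 0
  linarith

theorem LL_int {k : ℕ} {c : ℝ} (hc : 0 < c) : ∃ K : ℝ≥0∞, K ≠ ⊤ ∧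
    ∀ (i j l : Fin k), i ≠ j → i ≠ l → j ≠ l →
    ∫⁻ m : Fin k → E 1, ENNReal.ofReal |LL (m i 0) (m j 0) (m l 0)| * Wt c m ≤ K := by
  obtain ⟨K, hK, h⟩ := log_tri (k := k) hc (6 * (1 / Real.sqrt (2 * c)) ^ 3)
  refine ⟨K, hK, fun i j l hij hil hjl => ?_⟩
  have mc : ∀ (p : Fin k) (a : Fin 3), Measurable (fun m : Fin k → E 1 => m p 0 a) := by
    intro p a
    exact (measurable_pi_apply a).comp ((measurable_pi_apply 0).comp (measurable_pi_apply p))
  have e : ∀ m : Fin k → E 1, dt (m i 0) (m j 0) (m l 0) = 1 * b2 (m j 0) (m l 0) * m i 0 0 +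
      (-(m i 0 1) * (m j 0 0 * m l 0 2 - m j 0 2 * m l 0 0) +
        m i 0 2 * (m j 0 0 * m l 0 1 - m j 0 1 * m l 0 0)) := by
    intro m
    unfold dt b2
    ring
  unfold LL
  have h2 := h i j l hij hil hjl 1 (by simp)
    (fun m => (-(m i 0 1) * (m j 0 0 * m l 0 2 - m j 0 2 * m l 0 0) +
        m i 0 2 * (m j 0 0 * m l 0 1 - m j 0 1 * m l 0 0))) ?_ ?_ ?_
  · simp_rw [e]
    exact h2
  · exact (((mc i 1).neg).mul (((mc j 0).mul (mc l 2)).sub ((mc j 2).mul (mc l 0)))).add
      ((mc i 2).mul (((mc j 0).mul (mc l 1)).sub ((mc j 1).mul (mc l 0))))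
  · intro m z
    simp [Function.update_of_ne hij.symm, Function.update_of_ne hil.symm]
  · intro m
    rw [← e m]
    exact dt_le hc m i j l hij hil hjl

/-- `GI F1` -/
theorem F1_GI' : GI F1 := by
  intro c hc
  obtain ⟨C, hC0, hC⟩ := Psi_le
  obtain ⟨K, hK, h⟩ := LL_int (k := 5) hc
  have hmF : Measurable F1 := by
    unfold F1
    apply Psi_meas.comp
    apply measurable_pi_lambda
    intro i
    exact (measurable_pi_apply 0).comp (measurable_pi_apply i)
  have hmW : Measurable (fun m : Fin 5 → E 1 => Real.exp (-c * ∑ i, q (m i))) := by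
    apply Real.measurable_exp.comp
    apply Measurable.const_mul
    apply Finset.measurable_sum
    intro i _
    unfold q
    apply Finset.measurable_sum
    intro j _
    apply Finset.measurable_sum
    intro a _
    apply Complex.continuous_normSq.measurable.comp
    exact (measurable_pi_apply a).comp ((measurable_pi_apply j).comp (measurable_pi_apply i))
  refine ⟨(hmF.mul hmW).aestronglyMeasurable, ?_⟩
  rw [hasFiniteIntegral_iff_norm]
  have hLL : ∀ i j l : Fin 5, Measurable (fun m : Fin 5 → E 1 => |LL (m i 0) (m j 0) (m l 0)|) := by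
    intro i j l
    have mc : ∀ (p : Fin 5) (a : Fin 3), Measurable (fun m : Fin 5 → E 1 => m p 0 a) := by
      intro p a
      exact (measurable_pi_apply a).comp ((measurable_pi_apply 0).comp (measurable_pi_apply p))
    unfold LL dt
    apply Measurable.abs
    apply Real.measurable_log.comp
    apply Measurable.norm
    exact (((mc i 0).mul (((mc j 1).mul (mc l 2)).sub ((mc j 2).mul (mc l 1)))).sub
      ((mc i 1).mul (((mc j 0).mul (mc l 2)).sub ((mc j 2).mul (mc l 0))))).add
      ((mc i 2).mul (((mc j 0).mul (mc l 1)).sub ((mc j 1).mul (mc l 0))))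
  calc ∫⁻ m : Fin 5 → E 1, ENNReal.ofReal ‖F1 m * Real.exp (-c * ∑ i, q (m i))‖
      ≤ ∫⁻ m : Fin 5 → E 1, ENNReal.ofReal C * ∑ i : Fin 5, ∑ j : Fin 5, ∑ l : Fin 5,
          (if i < j ∧ j < l then ENNReal.ofReal |LL (m i 0) (m j 0) (m l 0)| * Wt c m else 0) := by
        apply lintegral_mono
        intro m
        show ENNReal.ofReal ‖F1 m * Real.exp (-c * ∑ i, q (m i))‖ ≤ _
        rw [norm_mul, Real.norm_eq_abs, Real.norm_eq_abs, abs_of_pos (Real.exp_pos _)]
        have h1 := hC (fun i => m i 0)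
        have h2 : |F1 m| * Real.exp (-c * ∑ i, q (m i)) ≤ C * ∑ i : Fin 5, ∑ j : Fin 5,
            ∑ l : Fin 5, (if i < j ∧ j < l then |LL (m i 0) (m j 0) (m l 0)| *
              Real.exp (-c * ∑ i, q (m i)) else 0) := by
          have h3 := mul_le_mul_of_nonneg_right h1 (Real.exp_pos (-c * ∑ i, q (m i))).le
          refine h3.trans (le_of_eq ?_)
          rw [mul_assoc, Finset.sum_mul]
          congr 1
          apply Finset.sum_congr rfl
          intro i _
          rw [Finset.sum_mul]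
          apply Finset.sum_congr rfl
          intro j _
          rw [Finset.sum_mul]
          apply Finset.sum_congr rfl
          intro l _
          split_ifs <;> simp
        refine (ENNReal.ofReal_le_ofReal h2).trans (le_of_eq ?_)
        rw [ENNReal.ofReal_mul hC0]
        congr 1
        rw [ENNReal.ofReal_sum_of_nonneg]
        · apply Finset.sum_congr rfl
          intro i _
          rw [ENNReal.ofReal_sum_of_nonneg]
          · apply Finset.sum_congr rfl
            intro j _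
            rw [ENNReal.ofReal_sum_of_nonneg]
            · apply Finset.sum_congr rfl
              intro l _
              split_ifs
              · rw [ENNReal.ofReal_mul (abs_nonneg _), Wt_eq]
              · simp
            · intro l _
              split_ifs <;> positivity
          · intro j _
            apply Finset.sum_nonneg
            intro l _
            split_ifs <;> positivity
        · intro i _
          apply Finset.sum_nonneg
          intro j _
          apply Finset.sum_nonneg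
          intro l _
          split_ifs <;> positivity
    _ < ⊤ := by
        have hm1 : ∀ i j l : Fin 5, Measurable (fun m : Fin 5 → E 1 =>
            (if i < j ∧ j < l then ENNReal.ofReal |LL (m i 0) (m j 0) (m l 0)| * Wt c m else 0)) := by
          intro i j l
          split_ifs
          · exact ((hLL i j l).ennreal_ofReal).mul (Wt_meas c)
          · exact measurable_const
        rw [lintegral_const_mul]
        · apply ENNReal.mul_lt_top ENNReal.ofReal_lt_top
          rw [lintegral_finsetSum]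
          · apply ENNReal.sum_lt_top.2
            intro i _
            rw [lintegral_finsetSum]
            · apply ENNReal.sum_lt_top.2
              intro j _
              rw [lintegral_finsetSum]
              · apply ENNReal.sum_lt_top.2
                intro l _
                by_cases hijl : i < j ∧ j < l
                · simp only [hijl, and_self, if_true]
                  refine lt_of_le_of_lt (h i j l hijl.1.ne (hijl.1.trans hijl.2).ne
                    hijl.2.ne) (lt_top_iff_ne_top.2 hK)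
                · simp [hijl]
              · intro l _
                exact hm1 i j l
            · intro j _
              exact Finset.measurable_sum _ fun l _ => hm1 i j l
          · intro i _
            exact Finset.measurable_sum _ fun j _ => Finset.measurable_sum _ fun l _ => hm1 i j l
        · exact Finset.measurable_sum _ fun i _ => Finset.measurable_sum _ fun j _ =>
            Finset.measurable_sum _ fun l _ => hm1 i j l

end Pool.Agent.Helper70.EX
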