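import Mathlib

/-! The fibre lemma : `∫ |w z + r|^(-1/2) exp(-c |z|^2) dz ≤ K |w|^(-1/2)`. -/

set_option autoImplicit false

namespace Pool.Agent.Helper70.EX

open MeasureTheory Complex
open scoped ENNReal

/-- `|z|^(-1/2)` with value `∞` at `0` -/
noncomputable def NN (z : ℂ) : ℝ≥0∞ := ‖z‖ₑ ^ (-(1 / 2) : ℝ)

/-- Gaussian weight -/
noncomputable def gE (c : ℝ) (z : ℂ) : ℝ≥0∞ := ENNReal.ofReal (Real.exp (-c * Complex.normSq z))

theorem NN_meas : Measurable NN := by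
  unfold NN
  exact (measurable_enorm).pow_const _

theorem gE_meas (c : ℝ) : Measurable (gE c) := by
  unfold gE
  apply ENNReal.measurable_ofReal.comp
  apply Real.measurable_exp.comp
  exact (Complex.continuous_normSq.measurable).const_mul _

theorem gE_le_one {c : ℝ} (hc : 0 ≤ c) (z : ℂ) : gE c z ≤ 1 := by
  unfold gE
  rw [ENNReal.ofReal_le_one, Real.exp_le_one_iff]
  have := Complex.normSq_nonneg z
  nlinarith

theorem NN_zero : NN 0 = ⊤ := by
  unfold NN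
  simp

theorem NN_ne_zero (z : ℂ) : NN z ≠ 0 := by
  unfold NN
  intro h
  rw [ENNReal.rpow_eq_zero_iff] at h
  rcases h with ⟨_, h⟩ | ⟨h, _⟩
  · norm_num at h
  · exact absurd h (enorm_ne_top)

theorem NN_one : NN 1 = 1 := by
  unfold NN
  simp

theorem NN_mul {w : ℂ} (hw : w ≠ 0) (z : ℂ) : NN (w * z) = NN w * NN z := by
  unfold NN
  rw [enorm_mul, ENNReal.mul_rpow_of_ne_top enorm_ne_top enorm_ne_top]

theorem NN_ofReal {z : ℂ} (hz : z ≠ 0) : NN z = ENNReal.ofReal (‖z‖ ^ (-(1 / 2) : ℝ)) := by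
  unfold NN
  rw [← ofReal_norm_eq_enorm, ENNReal.ofReal_rpow_of_pos (norm_pos_iff.2 hz)]

/-- integral of `|z|^(-1/2) exp(-|z|^2)` -/
theorem int0_lt : ∫⁻ z : ℂ, NN z * gE 1 z < ⊤ := by
  have h1 := Complex.integral_rpow_mul_exp_neg_rpow (p := 2) (q := -(1 / 2)) (by norm_num)
    (by norm_num)
  have h2 : Integrable (fun x : ℂ => ‖x‖ ^ (-(1 / 2) : ℝ) * Real.exp (-‖x‖ ^ (2 : ℝ))) := by
    by_contra h
    rw [integral_undef h] at h1
    have h3 : 0 < (2 * Real.pi / 2) * Real.Gamma ((-(1 / 2) + 2) / 2) := by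
      apply mul_pos
      · have := Real.pi_pos
        linarith
      · exact Real.Gamma_pos_of_pos (by norm_num)
    linarith
  have h3 := h2.lintegral_lt_top
  refine lt_of_le_of_lt (le_of_eq ?_) h3
  apply lintegral_congr_ae
  have h4 : ∀ᵐ z : ℂ, z ≠ 0 := by
    have : (volume : Measure ℂ) {0} = 0 := by simp
    rw [ae_iff]
    simpa using this
  filter_upwards [h4] with z hz
  rw [NN_ofReal hz, gE, ← ENNReal.ofReal_mul (by positivity)]
  congr 2
  rw [Complex.normSq_eq_norm_sq]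
  norm_num

theorem intg_lt {c : ℝ} (hc : 0 < c) : ∫⁻ z : ℂ, gE c z < ⊤ := by
  have h1 := Complex.integral_rpow_mul_exp_neg_mul_rpow (p := 2) (q := 0) (b := c) (by norm_num)
    (by norm_num) hc
  have h2 : Integrable (fun x : ℂ => ‖x‖ ^ (0 : ℝ) * Real.exp (-c * ‖x‖ ^ (2 : ℝ))) := by
    by_contra h
    rw [integral_undef h] at h1
    have h3 : 0 < (2 * Real.pi / 2) * c ^ (-(0 + 2) / 2 : ℝ) * Real.Gamma ((0 + 2) / 2) := by
      apply mul_pos
      · have := Real.pi_pos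
        positivity
      · exact Real.Gamma_pos_of_pos (by norm_num)
    linarith
  have h3 := h2.lintegral_lt_top
  refine lt_of_le_of_lt (le_of_eq ?_) h3
  apply lintegral_congr
  intro z
  rw [gE]
  congr 1
  rw [Complex.normSq_eq_norm_sq]
  norm_num

/-- pointwise bound -/
theorem NN_gE_le {c : ℝ} (hc : 0 ≤ c) (b z : ℂ) :
    NN (z + b) * gE c z ≤ gE c z + ENNReal.ofReal (Real.exp 1) * (NN (z + b) * gE 1 (z + b)) := by
  by_cases h : ‖z + b‖ ≤ 1
  · have h1 : (1 : ℝ≥0∞) ≤ ENNReal.ofReal (Real.exp 1) * gE 1 (z + b) := by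
      unfold gE
      rw [← ENNReal.ofReal_mul (Real.exp_pos 1).le, ← Real.exp_add, ← ENNReal.ofReal_one]
      apply ENNReal.ofReal_le_ofReal
      rw [Real.one_le_exp_iff, Complex.normSq_eq_norm_sq]
      have := norm_nonneg (z + b)
      nlinarith
    calc NN (z + b) * gE c z ≤ NN (z + b) * 1 := by gcongr; exact gE_le_one hc z
      _ ≤ NN (z + b) * (ENNReal.ofReal (Real.exp 1) * gE 1 (z + b)) := by gcongr
      _ = ENNReal.ofReal (Real.exp 1) * (NN (z + b) * gE 1 (z + b)) := by ring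
      _ ≤ _ := le_add_self
  · have h1 : NN (z + b) ≤ 1 := by
      unfold NN
      apply ENNReal.rpow_le_one_of_one_le_of_neg
      · rw [← ofReal_norm_eq_enorm, ← ENNReal.ofReal_one]
        exact ENNReal.ofReal_le_ofReal (not_le.1 h).le
      · norm_num
    calc NN (z + b) * gE c z ≤ 1 * gE c z := by gcongr
      _ = gE c z := one_mul _
      _ ≤ _ := le_self_add

theorem fib_one {c : ℝ} (hc : 0 < c) : ∃ K : ℝ≥0∞, K ≠ ⊤ ∧ K ≠ 0 ∧ ∀ b : ℂ,
    ∫⁻ z : ℂ, NN (z + b) * gE c z ≤ K := by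
  refine ⟨(∫⁻ z : ℂ, gE c z) + ENNReal.ofReal (Real.exp 1) * (∫⁻ z : ℂ, NN z * gE 1 z) + 1,
    ?_, ?_, ?_⟩
  · refine (ENNReal.add_lt_top.2 ⟨ENNReal.add_lt_top.2 ⟨intg_lt hc, ?_⟩, ENNReal.one_lt_top⟩).ne
    exact ENNReal.mul_lt_top ENNReal.ofReal_lt_top int0_lt
  · positivity
  · intro b
    have hm : Measurable (fun z : ℂ => NN z * gE 1 z) := NN_meas.mul (gE_meas 1)
    calc ∫⁻ z : ℂ, NN (z + b) * gE c z
        ≤ ∫⁻ z : ℂ, (gE c z + ENNReal.ofReal (Real.exp 1) * (NN (z + b) * gE 1 (z + b))) :=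
          lintegral_mono fun z => NN_gE_le hc.le b z
      _ = (∫⁻ z : ℂ, gE c z) + ∫⁻ z : ℂ, ENNReal.ofReal (Real.exp 1) *
            (NN (z + b) * gE 1 (z + b)) := lintegral_add_left (gE_meas c) _
      _ = (∫⁻ z : ℂ, gE c z) + ENNReal.ofReal (Real.exp 1) *
            ∫⁻ z : ℂ, (NN (z + b) * gE 1 (z + b)) := by
          rw [lintegral_const_mul]
          exact hm.comp (measurable_id.add_const b)
      _ = (∫⁻ z : ℂ, gE c z) + ENNReal.ofReal (Real.exp 1) * ∫⁻ z : ℂ, (NN z * gE 1 z) := by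
          rw [lintegral_add_right_eq_self (fun z : ℂ => NN z * gE 1 z) b]
      _ ≤ _ := le_self_add

/-- THE FIBRE LEMMA -/
theorem fib {c : ℝ} (hc : 0 < c) : ∃ K : ℝ≥0∞, K ≠ ⊤ ∧ K ≠ 0 ∧ ∀ w r : ℂ,
    ∫⁻ z : ℂ, NN (w * z + r) * gE c z ≤ K * NN w := by
  obtain ⟨K, hK, hK0, h⟩ := fib_one hc
  refine ⟨K, hK, hK0, fun w r => ?_⟩
  by_cases hw : w = 0
  · subst hw
    rw [NN_zero, ENNReal.mul_top hK0]
    exact le_top
  · have h1 : ∀ z : ℂ, NN (w * z + r) * gE c z = NN w * (NN (z + r / w) * gE c z) := by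
      intro z
      rw [show w * z + r = w * (z + r / w) by field_simp, NN_mul hw, mul_assoc]
    simp_rw [h1]
    rw [lintegral_const_mul]
    · rw [mul_comm]
      gcongr
      exact h _
    · exact (NN_meas.comp (measurable_id.add_const _)).mul (gE_meas c)

end Pool.Agent.Helper70.EX
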