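import Pool.Agent.Helper70.EX.Fib

/-! Peeling off coordinates of an iterated weighted integral. -/

set_option autoImplicit false

namespace Pool.Agent.Helper70.EX

open MeasureTheory
open scoped ENNReal

section peel

variable {δ : Type*} [DecidableEq δ] {X : Type*} [MeasurableSpace X]
  (μ : Measure X) [SigmaFinite μ] (g : X → ℝ≥0∞)

theorem peel (hg : Measurable g) {s : Finset δ} {i : δ} (hi : i ∈ s)
    {G H : (δ → X) → ℝ≥0∞} (hG : Measurable G)
    (h : ∀ m, ∫⁻ u, G (Function.update m i u) * g u ∂μ ≤ H m) (m : δ → X) :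
    (∫⋯∫⁻_s, (fun m => G m * ∏ l ∈ s, g (m l)) ∂(fun _ => μ)) m ≤
      (∫⋯∫⁻_(s.erase i), (fun m => H m * ∏ l ∈ s.erase i, g (m l)) ∂(fun _ => μ)) m := by
  have hm : Measurable (fun m : δ → X => G m * ∏ l ∈ s, g (m l)) := by
    apply hG.mul
    apply Finset.measurable_prod
    intro l _
    exact hg.comp (measurable_pi_apply l)
  rw [lmarginal_erase' _ hm hi]
  apply lmarginal_mono
  intro m
  have h1 : ∀ u : X, G (Function.update m i u) * ∏ l ∈ s, g (Function.update m i u l)
      = (G (Function.update m i u) * g u) * ∏ l ∈ s.erase i, g (m l) := by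
    intro u
    rw [← Finset.mul_prod_erase s (fun l => g (Function.update m i u l)) hi]
    rw [Function.update_self, ← mul_assoc]
    congr 1
    apply Finset.prod_congr rfl
    intro l hl
    rw [Function.update_of_ne (Finset.ne_of_mem_erase hl)]
  simp_rw [h1]
  rw [lintegral_mul_const]
  · gcongr
    exact h m
  · exact (hG.comp (measurable_update m)).mul hg

theorem peel_base (hg : Measurable g) (K : ℝ≥0∞) (s : Finset δ) (m : δ → X) :
    (∫⋯∫⁻_s, (fun m => K * ∏ l ∈ s, g (m l)) ∂(fun _ => μ)) m
      ≤ K * (∫⁻ u, g u ∂μ) ^ s.card := by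
  classical
  induction s using Finset.induction_on generalizing K with
  | empty => simp
  | insert i s hi ih =>
    have h1 := peel (δ := δ) μ g hg (s := insert i s) (i := i) (Finset.mem_insert_self i s)
      (G := fun _ => K) (H := fun _ => K * ∫⁻ u, g u ∂μ) measurable_const
      (fun m => by rw [lintegral_const_mul _ hg]) m
    refine h1.trans ?_
    rw [Finset.erase_insert hi]
    refine (ih _).trans ?_
    rw [Finset.card_insert_of_notMem hi, pow_succ]
    apply le_of_eq
    ring

end peel

end Pool.Agent.Helper70.EX
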