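import Pool.Agent.Helper70.EX.Peel
import Pool.Agent.Helper87.EX.Defs

/-! Triple bounds : iterated fibre lemma for determinants. -/

set_option autoImplicit false

namespace Pool.Agent.Helper70.EX

open MeasureTheory Pool.Agent.Helper87.EX
open scoped ENNReal

/-- weight on `ℂ^3` -/
noncomputable def g3 (c : ℝ) (v : Fin 3 → ℂ) : ℝ≥0∞ := ∏ i, gE c (v i)

/-- weight on `E 1` -/
noncomputable def g1 (c : ℝ) (u : E 1) : ℝ≥0∞ := g3 c (u 0)

theorem g3_meas (c : ℝ) : Measurable (g3 c) := by
  unfold g3
  apply Finset.measurable_prod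
  intro l _
  exact (gE_meas c).comp (measurable_pi_apply l)

theorem g1_meas (c : ℝ) : Measurable (g1 c) := by
  unfold g1
  exact (g3_meas c).comp (measurable_pi_apply 0)

theorem lint_E1 (f : (Fin 3 → ℂ) → ℝ≥0∞) :
    ∫⁻ u : E 1, f (u 0) = ∫⁻ v : Fin 3 → ℂ, f v := by
  have h := (volume_preserving_piUnique (fun _ : Fin 1 => (Fin 3 → ℂ))).lintegral_comp_emb
    (MeasurableEquiv.piUnique (fun _ : Fin 1 => (Fin 3 → ℂ))).measurableEmbedding f
  exact h

theorem g3_int_lt {c : ℝ} (hc : 0 < c) : ∫⁻ v : Fin 3 → ℂ, g3 c v < ⊤ := by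
  have h := peel_base (δ := Fin 3) (volume : Measure ℂ) (gE c) (gE_meas c) 1 Finset.univ 0
  rw [lmarginal_univ] at h
  refine lt_of_le_of_lt ?_ (lt_of_le_of_lt h ?_)
  · apply le_of_eq
    rw [volume_pi]
    simp [g3]
  · rw [one_mul]
    exact ENNReal.pow_lt_top (intg_lt hc)

theorem g1_int_lt {c : ℝ} (hc : 0 < c) : ∫⁻ u : E 1, g1 c u < ⊤ := by
  unfold g1
  rw [lint_E1 (g3 c)]
  exact g3_int_lt hc

/-- fibre lemma on `ℂ^3` -/
theorem fib3 {c : ℝ} (hc : 0 < c) : ∃ K : ℝ≥0∞, K ≠ ⊤ ∧ K ≠ 0 ∧ ∀ (j : Fin 3) (w : ℂ)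
    (f : (Fin 3 → ℂ) → ℂ), Measurable f → (∀ v z, f (Function.update v j z) = f v) →
    ∫⁻ v : Fin 3 → ℂ, NN (w * v j + f v) * g3 c v ≤ K * NN w := by
  obtain ⟨K, hK, hK0, h⟩ := fib hc
  refine ⟨K * (∫⁻ z : ℂ, gE c z) ^ 2 + 1, ?_, by positivity, ?_⟩
  · refine ENNReal.add_ne_top.2 ⟨?_, ENNReal.one_ne_top⟩
    exact ENNReal.mul_ne_top hK (ENNReal.pow_ne_top (intg_lt hc).ne)
  · intro j w f hf hfj
    have hG : Measurable (fun v : Fin 3 → ℂ => NN (w * v j + f v)) := by
      apply NN_meas.comp
      exact ((measurable_pi_apply j).const_mul w).add hf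
    have h1 := peel (δ := Fin 3) (volume : Measure ℂ) (gE c) (gE_meas c) (s := Finset.univ)
      (i := j) (Finset.mem_univ j) (G := fun v => NN (w * v j + f v))
      (H := fun _ => K * NN w) hG (fun m => by
        simp only [Function.update_self, hfj]
        exact h w (f m)) 0
    have h2 := peel_base (δ := Fin 3) (volume : Measure ℂ) (gE c) (gE_meas c) (K * NN w)
      (Finset.univ.erase j) 0
    rw [lmarginal_univ] at h1
    have h3 := h1.trans h2
    rw [Finset.card_erase_of_mem (Finset.mem_univ j), Finset.card_univ, Fintype.card_fin] at h3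
    have h4 : ∫⁻ v : Fin 3 → ℂ, NN (w * v j + f v) * g3 c v
        ≤ K * NN w * (∫⁻ z : ℂ, gE c z) ^ 2 := by
      rw [volume_pi]
      exact h3
    refine h4.trans ?_
    rw [add_mul, one_mul]
    refine le_trans (le_of_eq ?_) le_self_add
    ring

/-- the triple bound -/
theorem triple {k : ℕ} {c : ℝ} (hc : 0 < c) : ∃ K : ℝ≥0∞, K ≠ ⊤ ∧ ∀ (i j l : Fin k), i ≠ j →
    i ≠ l → j ≠ l → ∀ (ε : ℂ), ‖ε‖ = 1 → ∀ (f : (Fin k → E 1) → ℂ), Measurable f →
    (∀ m (z : ℂ), f (Function.update m i (fun _ => Function.update (m i 0) 0 z)) = f m) →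
    ∫⁻ m : Fin k → E 1, NN (ε * b2 (m j 0) (m l 0) * m i 0 0 + f m) * ∏ p, g1 c (m p) ≤ K := by
  obtain ⟨K, hK, hK0, h⟩ := fib3 hc
  refine ⟨K * (K * K) * max 1 (∫⁻ u : E 1, g1 c u) ^ k, ?_, ?_⟩
  · refine ENNReal.mul_ne_top (ENNReal.mul_ne_top hK (ENNReal.mul_ne_top hK hK)) ?_
    apply ENNReal.pow_ne_top
    exact (max_lt ENNReal.one_lt_top (g1_int_lt hc)).ne
  · intro i j l hij hil hjl ε hε f hf hfi
    have hε0 : ε ≠ 0 := by
      intro h0
      rw [h0] at hε
      simp at hε
    have hNε : NN ε = 1 := by
      unfold NN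
      rw [← ofReal_norm_eq_enorm, hε]
      simp
    have mc : ∀ (p : Fin k) (a : Fin 3), Measurable (fun m : Fin k → E 1 => m p 0 a) := by
      intro p a
      exact (measurable_pi_apply a).comp ((measurable_pi_apply 0).comp (measurable_pi_apply p))
    have hb2 : Measurable (fun m : Fin k → E 1 => b2 (m j 0) (m l 0)) := by
      unfold b2
      exact ((mc j 1).mul (mc l 2)).sub ((mc j 2).mul (mc l 1))
    have hG : Measurable (fun m : Fin k → E 1 =>
        NN (ε * b2 (m j 0) (m l 0) * m i 0 0 + f m)) := by
      apply NN_meas.comp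
      exact ((hb2.const_mul ε).mul (mc i 0)).add hf
    have s1 := peel (δ := Fin k) (volume : Measure (E 1)) (g1 c) (g1_meas c) (s := Finset.univ)
      (i := i) (Finset.mem_univ i) (H := fun m => K * NN (b2 (m j 0) (m l 0))) hG (fun m => by
        simp only [Function.update_self, Function.update_of_ne hij.symm,
          Function.update_of_ne hil.symm]
        unfold g1
        have e1 : ∫⁻ u : E 1, NN (ε * b2 (m j 0) (m l 0) * u 0 0 + f (Function.update m i u))
            * g3 c (u 0) = ∫⁻ v : Fin 3 → ℂ, NN (ε * b2 (m j 0) (m l 0) * v 0 +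
          f (Function.update m i (fun _ => v))) * g3 c v := by
          rw [← lint_E1 (fun v : Fin 3 → ℂ => NN (ε * b2 (m j 0) (m l 0) * v 0 +
            f (Function.update m i (fun _ => v))) * g3 c v)]
          apply lintegral_congr
          intro u
          have e2 : (fun _ => u 0) = u := by
            funext t
            rw [Subsingleton.elim t 0]
          rw [e2]
        rw [e1]
        refine (h 0 (ε * b2 (m j 0) (m l 0)) (fun v => f (Function.update m i (fun _ => v)))
          ?_ ?_).trans ?_
        · apply hf.comp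
          apply (measurable_update m).comp
          exact measurable_pi_lambda _ (fun _ => measurable_id)
        · intro v z
          have := hfi (Function.update m i (fun _ => v)) z
          simpa using this
        · rw [NN_mul hε0, hNε, one_mul]) 0
    have hji : j ∈ Finset.univ.erase i := by simp [hij.symm]
    have hH1 : Measurable (fun m : Fin k → E 1 => K * NN (b2 (m j 0) (m l 0))) :=
      (NN_meas.comp hb2).const_mul K
    have s2 := peel (δ := Fin k) (volume : Measure (E 1)) (g1 c) (g1_meas c)
      (s := Finset.univ.erase i) (i := j) hji (H := fun m => K * (K * NN (m l 0 2))) hH1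
      (fun m => by
        simp only [Function.update_self, Function.update_of_ne hjl.symm]
        unfold g1
        rw [lint_E1 (fun v : Fin 3 → ℂ => K * NN (b2 v (m l 0)) * g3 c v)]
        simp_rw [mul_assoc]
        rw [lintegral_const_mul]
        · gcongr
          refine le_trans (le_of_eq ?_) (h 1 (m l 0 2) (fun v => - v 2 * m l 0 1) ?_ ?_)
          · apply lintegral_congr
            intro v
            unfold b2
            congr 2
            ring
          · exact ((measurable_pi_apply 2).neg).mul_const _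
          · intro v z
            simp
        · refine (NN_meas.comp ?_).mul (g3_meas c)
          unfold b2
          exact ((measurable_pi_apply 1).mul_const _).sub ((measurable_pi_apply 2).mul_const _)) 0
    have hli : l ∈ (Finset.univ.erase i).erase j := by simp [hil.symm, hjl.symm]
    have hH2 : Measurable (fun m : Fin k → E 1 => K * (K * NN (m l 0 2))) :=
      ((NN_meas.comp (mc l 2)).const_mul K).const_mul K
    have s3 := peel (δ := Fin k) (volume : Measure (E 1)) (g1 c) (g1_meas c)
      (s := (Finset.univ.erase i).erase j) (i := l) hli (H := fun m => K * (K * K)) hH2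
      (fun m => by
        simp only [Function.update_self]
        unfold g1
        rw [lint_E1 (fun v : Fin 3 → ℂ => K * (K * NN (v 2)) * g3 c v)]
        simp_rw [mul_assoc]
        rw [lintegral_const_mul]
        · gcongr
          rw [lintegral_const_mul]
          · gcongr
            refine le_trans (le_of_eq ?_) ((h 2 1 (fun _ => 0) measurable_const
              (fun _ _ => rfl)).trans ?_)
            · apply lintegral_congr
              intro v
              simp
            · rw [NN_one, mul_one]
          · exact (NN_meas.comp (measurable_pi_apply 2)).mul (g3_meas c)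
        · exact ((NN_meas.comp (measurable_pi_apply 2)).mul (g3_meas c)).const_mul K) 0
    have s4 := peel_base (δ := Fin k) (volume : Measure (E 1)) (g1 c) (g1_meas c) (K * (K * K))
      (((Finset.univ.erase i).erase j).erase l) 0
    rw [lmarginal_univ] at s1
    have s5 := s1.trans (s2.trans (s3.trans s4))
    have e0 : ∫⁻ m : Fin k → E 1, NN (ε * b2 (m j 0) (m l 0) * m i 0 0 + f m) * ∏ p, g1 c (m p)
        ≤ K * (K * K) * (∫⁻ u : E 1, g1 c u) ^ (((Finset.univ.erase i).erase j).erase l).card :=
      s5
    refine e0.trans ?_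
    have e5 : (∫⁻ u : E 1, g1 c u) ^ (((Finset.univ.erase i).erase j).erase l).card
        ≤ (max 1 (∫⁻ u : E 1, g1 c u)) ^ k := by
      calc (∫⁻ u : E 1, g1 c u) ^ (((Finset.univ.erase i).erase j).erase l).card
          ≤ (max 1 (∫⁻ u : E 1, g1 c u)) ^ (((Finset.univ.erase i).erase j).erase l).card := by
            gcongr
            exact le_max_right _ _
        _ ≤ _ := by
            apply pow_le_pow_right₀ (le_max_left _ _)
            refine (Finset.card_le_univ _).trans ?_
            simp
    exact mul_le_mul_right e5 _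

end Pool.Agent.Helper70.EX
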